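import Pool.Agent.Helper73.Dil.Pure

open Topology Set Filter MeasureTheory Metric
open scoped Pointwise

namespace Pool.Agent.Helper73.Dil

namespace LATINT

theorem sctG : SecondCountableTopology G := by
  have : SecondCountableTopology (Matrix (Fin 2) (Fin 2) ℝ) :=
    inferInstanceAs (SecondCountableTopology (Fin 2 → Fin 2 → ℝ))
  exact TopologicalSpace.Subtype.secondCountableTopology
    {A : Matrix (Fin 2) (Fin 2) ℝ | A.det = 1}

theorem tn_sq (M : G) : tn M ^ 2 =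
    ((M.1 0 0 - M.1 1 1) / 2) ^ 2 + (M.1 0 1 ^ 2 + M.1 1 0 ^ 2) / 2 :=
  Real.sq_sqrt (by positivity)

theorem tn_nonneg (M : G) : 0 ≤ tn M := Real.sqrt_nonneg _

theorem det_eq (M : G) : M.1 0 0 * M.1 1 1 - M.1 0 1 * M.1 1 0 = 1 := by
  have := M.2
  rwa [Matrix.det_fin_two] at this

theorem mul00 (A B : G) : (A * B).1 0 0 = A.1 0 0 * B.1 0 0 + A.1 0 1 * B.1 1 0 := by
  simp [Matrix.mul_apply, Fin.sum_univ_two]

theorem mul01 (A B : G) : (A * B).1 0 1 = A.1 0 0 * B.1 0 1 + A.1 0 1 * B.1 1 1 := by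
  simp [Matrix.mul_apply, Fin.sum_univ_two]

theorem mul10 (A B : G) : (A * B).1 1 0 = A.1 1 0 * B.1 0 0 + A.1 1 1 * B.1 1 0 := by
  simp [Matrix.mul_apply, Fin.sum_univ_two]

theorem mul11 (A B : G) : (A * B).1 1 1 = A.1 1 0 * B.1 0 1 + A.1 1 1 * B.1 1 1 := by
  simp [Matrix.mul_apply, Fin.sum_univ_two]

theorem inv00 (A : G) : (A⁻¹).1 0 0 = A.1 1 1 := by
  rw [Matrix.SpecialLinearGroup.coe_inv, Matrix.adjugate_fin_two]; simp

theorem inv01 (A : G) : (A⁻¹).1 0 1 = -A.1 0 1 := by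
  rw [Matrix.SpecialLinearGroup.coe_inv, Matrix.adjugate_fin_two]; simp

theorem inv10 (A : G) : (A⁻¹).1 1 0 = -A.1 1 0 := by
  rw [Matrix.SpecialLinearGroup.coe_inv, Matrix.adjugate_fin_two]; simp

theorem inv11 (A : G) : (A⁻¹).1 1 1 = A.1 0 0 := by
  rw [Matrix.SpecialLinearGroup.coe_inv, Matrix.adjugate_fin_two]; simp

theorem tn_rot (θ : ℝ) (M : G) : tn (rot θ * M * (rot θ)⁻¹) = tn M := by
  have h1 := tn_sq (rot θ * M * (rot θ)⁻¹)
  have h2 := tn_sq M
  have hcs : Real.cos θ ^ 2 + Real.sin θ ^ 2 = 1 := by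
    have := Real.sin_sq_add_cos_sq θ; linarith
  have h3 : tn (rot θ * M * (rot θ)⁻¹) ^ 2 = tn M ^ 2 := by
    rw [h1, h2]
    simp only [mul00, mul01, mul10, mul11, inv00, inv01, inv10, inv11]
    have r00 : (rot θ).1 0 0 = Real.cos θ := by simp [rot]
    have r01 : (rot θ).1 0 1 = -Real.sin θ := by simp [rot]
    have r10 : (rot θ).1 1 0 = Real.sin θ := by simp [rot]
    have r11 : (rot θ).1 1 1 = Real.cos θ := by simp [rot]
    rw [r00, r01, r10, r11]
    linear_combination (((M.1 0 0 - M.1 1 1) / 2) ^ 2 + (M.1 0 1 ^ 2 + M.1 1 0 ^ 2) / 2) *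
      (Real.cos θ ^ 2 + Real.sin θ ^ 2 + 1) * hcs
  exact (pow_left_inj₀ (tn_nonneg _) (tn_nonneg _) two_ne_zero).1 h3

theorem tn_dia (r : ℝ) (M : G) : tn (dia r * M * (dia r)⁻¹) ^ 2 =
    ((M.1 0 0 - M.1 1 1) / 2) ^ 2 +
      (Real.exp r ^ 2 * M.1 0 1 ^ 2 + Real.exp (-r) ^ 2 * M.1 1 0 ^ 2) / 2 := by
  rw [tn_sq]
  simp only [mul00, mul01, mul10, mul11, inv00, inv01, inv10, inv11]
  have r00 : (dia r).1 0 0 = Real.exp (r / 2) := by simp [dia]
  have r01 : (dia r).1 0 1 = 0 := by simp [dia]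
  have r10 : (dia r).1 1 0 = 0 := by simp [dia]
  have r11 : (dia r).1 1 1 = Real.exp (-(r / 2)) := by simp [dia]
  rw [r00, r01, r10, r11]
  have e1 : Real.exp r = Real.exp (r / 2) * Real.exp (r / 2) := by
    rw [← Real.exp_add]; congr 1; ring
  have e2 : Real.exp (-r) = Real.exp (-(r / 2)) * Real.exp (-(r / 2)) := by
    rw [← Real.exp_add]; congr 1; ring
  have e3 : Real.exp (r / 2) * Real.exp (-(r / 2)) = 1 := by
    rw [← Real.exp_add]; simp
  rw [e1, e2]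
  linear_combination (1 / 4 * (M.1 0 0 - M.1 1 1) ^ 2) *
      (Real.exp (r / 2) * Real.exp (-(r / 2)) + 1) * e3

theorem tn_dia_le (r : ℝ) (hr : 0 ≤ r) (M : G) :
    tn (dia r * M * (dia r)⁻¹) ≤ Real.exp r * tn M := by
  have h1 := tn_dia r M
  have h2 := tn_sq M
  have hE : 1 ≤ Real.exp r := Real.one_le_exp hr
  have hE' : Real.exp (-r) ≤ 1 := Real.exp_le_one_iff.2 (by linarith)
  have hE2 : 1 ≤ Real.exp r ^ 2 := one_le_pow₀ hE
  have hE3 : Real.exp (-r) ^ 2 ≤ 1 := pow_le_one₀ (Real.exp_pos _).le hE'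
  have h3 : tn (dia r * M * (dia r)⁻¹) ^ 2 ≤ (Real.exp r * tn M) ^ 2 := by
    rw [mul_pow, h1, h2]
    have e1 := sq_nonneg ((M.1 0 0 - M.1 1 1) / 2)
    have e3 := sq_nonneg (M.1 1 0)
    nlinarith [mul_nonneg e1 (sub_nonneg.2 hE2), mul_nonneg e3 (sub_nonneg.2 hE2),
      mul_nonneg e3 (sub_nonneg.2 hE3)]
  exact (pow_le_pow_iff_left₀ (tn_nonneg _) (mul_nonneg (Real.exp_pos _).le (tn_nonneg _))
    two_ne_zero).1 h3

theorem le_tn_dia (r : ℝ) (hr : 0 ≤ r) (M : G) :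
    tn M ≤ Real.exp r * tn (dia r * M * (dia r)⁻¹) := by
  have h1 := tn_dia r M
  have h2 := tn_sq M
  have hE : 1 ≤ Real.exp r := Real.one_le_exp hr
  have hE2 : 1 ≤ Real.exp r ^ 2 := one_le_pow₀ hE
  have hE4 : Real.exp r ^ 2 * Real.exp (-r) ^ 2 = 1 := by
    rw [← mul_pow, ← Real.exp_add]; simp
  have h3 : tn M ^ 2 ≤ (Real.exp r * tn (dia r * M * (dia r)⁻¹)) ^ 2 := by
    rw [mul_pow, h1, h2]
    have e1 := sq_nonneg ((M.1 0 0 - M.1 1 1) / 2)
    have e2 := sq_nonneg (M.1 0 1)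
    have e4 : Real.exp r ^ 2 * (Real.exp (-r) ^ 2 * M.1 1 0 ^ 2) = M.1 1 0 ^ 2 := by
      rw [← mul_assoc, hE4, one_mul]
    have e5 : 1 ≤ Real.exp r ^ 2 * Real.exp r ^ 2 := by nlinarith
    nlinarith [mul_nonneg e1 (sub_nonneg.2 hE2), mul_nonneg e2 (sub_nonneg.2 e5)]
  exact (pow_le_pow_iff_left₀ (tn_nonneg _) (mul_nonneg (Real.exp_pos _).le (tn_nonneg _))
    two_ne_zero).1 h3

/-- conjugation by `dia r * rot θ * g` -/
theorem conj_eq (r θ : ℝ) (g γ : G) :
    (dia r * rot θ * g) * γ * (dia r * rot θ * g)⁻¹ =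
      dia r * (rot θ * (g * γ * g⁻¹) * (rot θ)⁻¹) * (dia r)⁻¹ := by
  group

theorem tn_step_le (r θ : ℝ) (hr : 0 ≤ r) (g γ : G) :
    tn ((dia r * rot θ * g) * γ * (dia r * rot θ * g)⁻¹) ≤ Real.exp r * tn (g * γ * g⁻¹) := by
  rw [conj_eq]
  refine (tn_dia_le r hr _).trans ?_
  rw [tn_rot]

theorem le_tn_step (r θ : ℝ) (hr : 0 ≤ r) (g γ : G) :
    tn (g * γ * g⁻¹) ≤ Real.exp r * tn ((dia r * rot θ * g) * γ * (dia r * rot θ * g)⁻¹) := by
  rw [conj_eq]
  refine le_trans ?_ (le_tn_dia r hr _)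
  rw [tn_rot]

theorem ext4 (A B : G) (h0 : A.1 0 0 = B.1 0 0) (h1 : A.1 0 1 = B.1 0 1) (h2 : A.1 1 0 = B.1 1 0)
    (h3 : A.1 1 1 = B.1 1 1) : A = B := by
  apply Subtype.ext
  ext i j
  fin_cases i <;> fin_cases j
  · exact h0
  · exact h1
  · exact h2
  · exact h3

theorem one00 : (1 : G).1 0 0 = 1 := by simp
theorem one01 : (1 : G).1 0 1 = 0 := by simp
theorem one10 : (1 : G).1 1 0 = 0 := by simp
theorem one11 : (1 : G).1 1 1 = 1 := by simp
theorem neg00 : (-1 : G).1 0 0 = -1 := by simp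
theorem neg01 : (-1 : G).1 0 1 = 0 := by simp
theorem neg10 : (-1 : G).1 1 0 = 0 := by simp
theorem neg11 : (-1 : G).1 1 1 = -1 := by simp

/-- the only matrices with `tn = 0` are `±1` -/
theorem eq_of_tn_zero (M : G) (h : tn M = 0) : M = 1 ∨ M = -1 := by
  have h2 := tn_sq M
  rw [h] at h2
  have e1 := sq_nonneg ((M.1 0 0 - M.1 1 1) / 2)
  have e2 := sq_nonneg (M.1 0 1)
  have e3 := sq_nonneg (M.1 1 0)
  have f1 : (M.1 0 0 - M.1 1 1) / 2 = 0 := by
    apply pow_eq_zero_iff (two_ne_zero) |>.1; linarith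
  have f2 : M.1 0 1 = 0 := by
    apply pow_eq_zero_iff (two_ne_zero) |>.1; linarith
  have f3 : M.1 1 0 = 0 := by
    apply pow_eq_zero_iff (two_ne_zero) |>.1; linarith
  have hd := det_eq M
  rw [f2, f3] at hd
  have f4 : M.1 1 1 = M.1 0 0 := by linarith
  rw [f4] at hd
  have f5 : (M.1 0 0 - 1) * (M.1 0 0 + 1) = 0 := by linarith
  rcases mul_eq_zero.1 f5 with f | f
  · left
    apply ext4 _ _ _ _ _ _
    · rw [one00]; linarith
    · rw [one01]; exact f2
    · rw [one10]; exact f3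
    · rw [one11]; linarith
  · right
    apply ext4 _ _ _ _ _ _
    · rw [neg00]; linarith
    · rw [neg01]; exact f2
    · rw [neg10]; exact f3
    · rw [neg11]; linarith

theorem tn_conj_ne (g γ : G) (h1 : γ ≠ 1) (h2 : γ ≠ -1) : tn (g * γ * g⁻¹) ≠ 0 := by
  intro h
  rcases eq_of_tn_zero _ h with h | h
  · apply h1
    have : γ = g⁻¹ * (g * γ * g⁻¹) * g := by group
    rw [this, h]; group
  · apply h2
    have : γ = g⁻¹ * (g * γ * g⁻¹) * g := by group
    rw [this, h]; simp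

theorem tn_conj_pos (g γ : G) (h1 : γ ≠ 1) (h2 : γ ≠ -1) : 0 < tn (g * γ * g⁻¹) :=
  lt_of_le_of_ne (tn_nonneg _) (tn_conj_ne g γ h1 h2).symm

theorem sq_eq_one (M : G) (h : M * M = 1) : M = 1 ∨ M = -1 := by
  have h00 : (M * M).1 0 0 = 1 := by rw [h, one00]
  have h01 : (M * M).1 0 1 = 0 := by rw [h, one01]
  have h10 : (M * M).1 1 0 = 0 := by rw [h, one10]
  have h11 : (M * M).1 1 1 = 1 := by rw [h, one11]
  rw [mul00] at h00
  rw [mul01] at h01
  rw [mul10] at h10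
  rw [mul11] at h11
  have hd := det_eq M
  have hs : M.1 0 0 + M.1 1 1 ≠ 0 := by
    intro hs
    have : M.1 1 1 = - M.1 0 0 := by linarith
    rw [this] at hd
    nlinarith
  have f2 : M.1 0 1 = 0 := by
    have : M.1 0 1 * (M.1 0 0 + M.1 1 1) = 0 := by linarith
    exact (mul_eq_zero.1 this).resolve_right hs
  have f3 : M.1 1 0 = 0 := by
    have : M.1 1 0 * (M.1 0 0 + M.1 1 1) = 0 := by linarith
    exact (mul_eq_zero.1 this).resolve_right hs
  apply eq_of_tn_zero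
  have h2 := tn_sq M
  rw [f2, f3] at h2 hd h00 h11
  have h4 : (M.1 0 0 - M.1 1 1) ^ 2 = 0 := by nlinarith
  have h5 : tn M ^ 2 = 0 := by rw [h2]; nlinarith
  exact pow_eq_zero_iff two_ne_zero |>.1 h5

/-- entries of the square are close to the identity when `tn` is small -/
theorem sq_close (M : G) (h : tn M ≤ 1) :
    |(M * M).1 0 0 - 1| ≤ 6 * tn M ∧ |(M * M).1 0 1| ≤ 6 * tn M ∧
      |(M * M).1 1 0| ≤ 6 * tn M ∧ |(M * M).1 1 1 - 1| ≤ 6 * tn M := by
  have h2 := tn_sq M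
  have hd := det_eq M
  have h0 := tn_nonneg M
  obtain ⟨a, ha⟩ : ∃ a, a = M.1 0 0 := ⟨_, rfl⟩
  obtain ⟨b, hb⟩ : ∃ b, b = M.1 0 1 := ⟨_, rfl⟩
  obtain ⟨c, hc⟩ : ∃ c, c = M.1 1 0 := ⟨_, rfl⟩
  obtain ⟨d, hdd⟩ : ∃ d, d = M.1 1 1 := ⟨_, rfl⟩
  rw [mul00, mul01, mul10, mul11]
  rw [← ha, ← hb, ← hc, ← hdd] at h2 hd
  rw [← ha, ← hb, ← hc, ← hdd]
  obtain ⟨A, hA⟩ : ∃ A, A = (a + d) / 2 := ⟨_, rfl⟩
  obtain ⟨x, hx⟩ : ∃ x, x = (a - d) / 2 := ⟨_, rfl⟩
  have ea : a = A + x := by rw [hA, hx]; ring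
  have ed : d = A - x := by rw [hA, hx]; ring
  rw [← hx] at h2
  rw [ea, ed] at hd ⊢
  obtain ⟨t, ht⟩ : ∃ t, t = tn M := ⟨_, rfl⟩
  rw [← ht] at h2 h h0
  rw [← ht]
  have hA2 : A ^ 2 = 1 + x ^ 2 + b * c := by linarith
  have hbc : |x ^ 2 + b * c| ≤ t ^ 2 := by
    rw [abs_le]; constructor <;> nlinarith [sq_nonneg (b + c), sq_nonneg (b - c)]
  have ht2 : t ^ 2 ≤ t := by nlinarith
  have hA3 : |A| ≤ 3 / 2 := by
    apply abs_le_of_sq_le_sq _ (by norm_num)
    have := (abs_le.1 hbc).2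
    nlinarith
  have hxt : |x| ≤ t := by
    apply abs_le_of_sq_le_sq _ h0
    nlinarith [sq_nonneg b, sq_nonneg c]
  have t0 := sq_nonneg t
  have x0 := sq_nonneg x
  have b0 := sq_nonneg b
  have c0 := sq_nonneg c
  have hbt : |b| ≤ 2 * t := by
    apply abs_le_of_sq_le_sq _ (by linarith)
    rw [mul_pow]; linarith
  have hct : |c| ≤ 2 * t := by
    apply abs_le_of_sq_le_sq _ (by linarith)
    rw [mul_pow]; linarith
  have hAx : |A * x| ≤ 3 / 2 * t := by
    rw [abs_mul]; exact mul_le_mul hA3 hxt (abs_nonneg _) (by norm_num)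
  have hAb : |A * b| ≤ 3 / 2 * (2 * t) := by
    rw [abs_mul]; exact mul_le_mul hA3 hbt (abs_nonneg _) (by norm_num)
  have hAc : |A * c| ≤ 3 / 2 * (2 * t) := by
    rw [abs_mul]; exact mul_le_mul hA3 hct (abs_nonneg _) (by norm_num)
  have e00 : (A + x) * (A + x) + b * c - 1 = 2 * (x ^ 2 + b * c) + 2 * (A * x) := by
    linear_combination hA2
  have e01 : (A + x) * b + b * (A - x) = 2 * (A * b) := by ring
  have e10 : c * (A + x) + (A - x) * c = 2 * (A * c) := by ring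
  have e11 : c * b + (A - x) * (A - x) - 1 = 2 * (x ^ 2 + b * c) - 2 * (A * x) := by
    linear_combination hA2
  rw [e00, e01, e10, e11]
  rw [abs_le] at hbc hAx hAb hAc
  obtain ⟨q1, q2⟩ := hbc
  obtain ⟨q3, q4⟩ := hAx
  obtain ⟨q5, q6⟩ := hAb
  obtain ⟨q7, q8⟩ := hAc
  refine ⟨?_, ?_, ?_, ?_⟩ <;> rw [abs_le] <;> constructor <;> linarith

theorem tendsto_sq : Tendsto (fun M : G => M * M) (comap tn (𝓝 0)) (𝓝 1) := by
  have hind : Topology.IsInducing (fun M : G => (M.1 : Matrix (Fin 2) (Fin 2) ℝ)) :=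
    ⟨rfl⟩
  refine hind.tendsto_nhds_iff.2 ?_
  have key : ∀ f : G → ℝ, (∀ M, tn M ≤ 1 → |f M| ≤ 6 * tn M) →
      Tendsto f (comap tn (𝓝 0)) (𝓝 0) := by
    intro f hf
    have h0 : Tendsto (fun M => 6 * tn M) (comap tn (𝓝 0)) (𝓝 0) := by
      have := (tendsto_comap (f := tn) (x := 𝓝 (0 : ℝ))).const_mul 6
      simpa using this
    have h1 : ∀ᶠ M in comap tn (𝓝 0), |f M| ≤ 6 * tn M := by
      have : ∀ᶠ M in comap tn (𝓝 (0 : ℝ)), tn M < 1 :=
        tendsto_comap.eventually (Iio_mem_nhds one_pos)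
      filter_upwards [this] with M hM
      exact hf M hM.le
    exact squeeze_zero_norm' (by simpa [Real.norm_eq_abs] using h1) h0
  refine tendsto_pi_nhds.2 fun i => tendsto_pi_nhds.2 fun j => ?_
  fin_cases i <;> fin_cases j
  · have := key (fun M => (M * M).1 0 0 - 1) (fun M hM => (sq_close M hM).1)
    have := this.add_const 1
    simpa using this
  · have := key (fun M => (M * M).1 0 1) (fun M hM => (sq_close M hM).2.1)
    simpa using this
  · have := key (fun M => (M * M).1 1 0) (fun M hM => (sq_close M hM).2.2.1)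
    simpa using this
  · have := key (fun M => (M * M).1 1 1 - 1) (fun M hM => (sq_close M hM).2.2.2)
    have := this.add_const 1
    simpa using this

/-- uniform lower bound for `tn` of conjugates of nontrivial elements of a discrete group -/
theorem tn_lower (Γ : Subgroup G) (hd : DiscreteTopology Γ) (g : G) :
    ∃ δ : ℝ, 0 < δ ∧ ∀ γ ∈ Γ, γ ≠ 1 → γ ≠ -1 → δ ≤ tn (g * γ * g⁻¹) := by
  have hopen : IsOpen ({1} : Set Γ) := isOpen_discrete _
  obtain ⟨U, hU, hU1⟩ := isOpen_induced_iff.1 hopen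
  have h1U : (1 : G) ∈ U := by
    have : (1 : Γ) ∈ (Subtype.val ⁻¹' U : Set Γ) := by rw [hU1]; rfl
    simpa using this
  have hc : Tendsto (fun N : G => g⁻¹ * N * g) (𝓝 1) (𝓝 1) := by
    have : Continuous (fun N : G => g⁻¹ * N * g) := by fun_prop
    have h := this.tendsto 1
    simpa using h
  have h2 := hc.comp tendsto_sq
  have h3 : ∀ᶠ M in comap tn (𝓝 (0 : ℝ)), g⁻¹ * (M * M) * g ∈ U :=
    h2.eventually (hU.mem_nhds h1U)
  rw [eventually_comap] at h3
  obtain ⟨δ, hδ, h4⟩ := Metric.eventually_nhds_iff.1 h3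
  refine ⟨δ, hδ, fun γ hγ h1 hn1 => ?_⟩
  by_contra hlt
  push Not at hlt
  have h5 : g⁻¹ * ((g * γ * g⁻¹) * (g * γ * g⁻¹)) * g ∈ U := by
    refine h4 (y := tn (g * γ * g⁻¹)) ?_ _ rfl
    rw [Real.dist_eq, sub_zero, abs_of_nonneg (tn_nonneg _)]
    exact hlt
  have h6 : g⁻¹ * ((g * γ * g⁻¹) * (g * γ * g⁻¹)) * g = γ * γ := by group
  rw [h6] at h5
  have h7 : (⟨γ * γ, Γ.mul_mem hγ hγ⟩ : Γ) ∈ (Subtype.val ⁻¹' U : Set Γ) := h5
  rw [hU1] at h7
  have h8 : γ * γ = 1 := congrArg Subtype.val (mem_singleton_iff.1 h7)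
  rcases sq_eq_one γ h8 with h | h
  · exact h1 h
  · exact hn1 h

theorem lam_lt_top (Γ : Subgroup G) (hd : DiscreteTopology Γ) (g : G) : lam Γ g < ⊤ := by
  obtain ⟨δ, hδ, h⟩ := tn_lower Γ hd g
  refine lt_of_le_of_lt (iSup_le fun γ => ?_) (ENNReal.ofReal_lt_top (r := δ ^ (-(1 / 2) : ℝ)))
  apply ENNReal.ofReal_le_ofReal
  exact Real.rpow_le_rpow_of_nonpos hδ (h γ.1 γ.2.1 γ.2.2.1 γ.2.2.2) (by norm_num)

theorem cont_entry (i j : Fin 2) : Continuous fun M : G => M.1 i j :=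
  continuous_subtype_val.matrix_elem i j

theorem cont_tn : Continuous tn := by
  have h00 := cont_entry 0 0
  have h01 := cont_entry 0 1
  have h10 := cont_entry 1 0
  have h11 := cont_entry 1 1
  unfold tn
  fun_prop

theorem cont_rot : Continuous rot := by
  refine continuous_induced_rng.2 ?_
  refine continuous_matrix fun i j => ?_
  fin_cases i <;> fin_cases j <;> simp [rot] <;> fun_prop

theorem cont_step (r : ℝ) : Continuous fun p : ℝ × G => dia r * rot p.1 * p.2 := by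
  have := cont_rot
  fun_prop

theorem cont_step' (r : ℝ) (g : G) : Continuous fun θ : ℝ => dia r * rot θ * g := by
  have := cont_rot
  fun_prop

theorem countable_of_discrete (Γ : Subgroup G) (hd : DiscreteTopology Γ) : Countable Γ := by
  have := sctG
  exact TopologicalSpace.separableSpace_iff_countable.1 inferInstance

theorem lam_meas (Γ : Subgroup G) (hd : DiscreteTopology Γ) : Measurable (lam Γ) := by
  have := countable_of_discrete Γ hd
  have hc : Countable {γ : G // γ ∈ Γ ∧ γ ≠ 1 ∧ γ ≠ -1} := by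
    let φ : {γ : G // γ ∈ Γ ∧ γ ≠ 1 ∧ γ ≠ -1} → Γ := fun γ => ⟨γ.1, γ.2.1⟩
    have hφ : Function.Injective φ := fun a b hab => Subtype.ext (congrArg (fun x : Γ => x.1) hab)
    exact hφ.countable
  have h : ∀ γ : {γ : G // γ ∈ Γ ∧ γ ≠ 1 ∧ γ ≠ -1}, Measurable fun g : G =>
      ENNReal.ofReal ((tn (g * γ.1 * g⁻¹)) ^ (-(1 / 2) : ℝ)) := by
    intro γ
    have h1 : Continuous fun g : G => tn (g * γ.1 * g⁻¹) := by
      have := cont_tn
      fun_prop
    exact (h1.measurable.pow_const _).ennreal_ofReal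
  unfold lam
  exact Measurable.iSup h

theorem lam_inv (Γ : Subgroup G) (η : G) (hη : η ∈ Γ) (g : G) : lam Γ (g * η) = lam Γ g := by
  have key : ∀ (η : G), η ∈ Γ → ∀ g, lam Γ (g * η) ≤ lam Γ g := by
    intro η hη g
    unfold lam
    refine iSup_le fun γ => ?_
    have h1 : η * γ.1 * η⁻¹ ∈ Γ := Γ.mul_mem (Γ.mul_mem hη γ.2.1) (Γ.inv_mem hη)
    have h2 : η * γ.1 * η⁻¹ ≠ 1 := by
      intro h
      apply γ.2.2.1
      have : γ.1 = η⁻¹ * (η * γ.1 * η⁻¹) * η := by group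
      rw [this, h]; group
    have h3 : η * γ.1 * η⁻¹ ≠ -1 := by
      intro h
      apply γ.2.2.2
      have : γ.1 = η⁻¹ * (η * γ.1 * η⁻¹) * η := by group
      rw [this, h]; simp
    refine le_iSup_of_le (f := fun γ : {γ : G // γ ∈ Γ ∧ γ ≠ 1 ∧ γ ≠ -1} =>
      ENNReal.ofReal ((tn (g * γ.1 * g⁻¹)) ^ (-(1 / 2) : ℝ))) ⟨η * γ.1 * η⁻¹, h1, h2, h3⟩ ?_
    apply le_of_eq
    congr 3
    simp only
    group
  apply le_antisymm (key η hη g)
  have := key η⁻¹ (Γ.inv_mem hη) (g * η)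
  rwa [mul_inv_cancel_right] at this

/-- averaging over the circle of radius `r` -/
noncomputable def PP (r : ℝ) (f : G → ENNReal) (g : G) : ENNReal :=
  ENNReal.ofReal (1 / (2 * Real.pi)) *
    ∫⁻ θ in Ioc (0 : ℝ) (2 * Real.pi), f (dia r * rot θ * g)

theorem PP_mono (r : ℝ) {f f' : G → ENNReal} (h : ∀ g, f g ≤ f' g) (g : G) :
    PP r f g ≤ PP r f' g := by
  unfold PP
  gcongr
  exact h _

theorem two_pi : ENNReal.ofReal (1 / (2 * Real.pi)) * ENNReal.ofReal (2 * Real.pi) = 1 := by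
  rw [← ENNReal.ofReal_mul (by positivity)]
  rw [one_div, inv_mul_cancel₀ (by positivity)]
  simp

theorem PP_const (r : ℝ) (a : ENNReal) (g : G) : PP r (fun _ => a) g = a := by
  unfold PP
  rw [setLIntegral_const, Real.volume_Ioc, sub_zero, mul_comm a, ← mul_assoc, two_pi, one_mul]

theorem PP_lam_le (hZ : ST_ZAS) (hR : ST_RATIO) (r c : ℝ) (hr : 0 < r)
    (hD : ∀ (g γ : G), tn γ ≠ 0 →
      (1 / (2 * Real.pi)) * ∫ θ in (0 : ℝ)..(2 * Real.pi),
          (tn ((dia r * rot θ * g) * γ * (dia r * rot θ * g)⁻¹)) ^ (-(1 / 2) : ℝ)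
        ≤ (1 - c) * (tn (g * γ * g⁻¹)) ^ (-(1 / 2) : ℝ))
    (Γ : Subgroup G) (hd : DiscreteTopology Γ) :
    ∃ K : ENNReal, K < ⊤ ∧ ∀ g, PP r (lam Γ) g ≤ K + ENNReal.ofReal (1 - c) * lam Γ g := by
  obtain ⟨ε, hε, hZ⟩ := hZ
  have hZ := hZ Γ hd
  obtain ⟨C, hC⟩ : ∃ C, C = Real.exp r := ⟨_, rfl⟩
  have hC0 : 0 < C := hC ▸ Real.exp_pos r
  obtain ⟨t0, ht0⟩ : ∃ t0, t0 = ε / C := ⟨_, rfl⟩
  have ht0p : 0 < t0 := ht0 ▸ div_pos hε hC0
  refine ⟨ENNReal.ofReal ((t0 / C) ^ (-(1 / 2) : ℝ)) + ENNReal.ofReal (ε ^ (-(1 / 2) : ℝ)),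
    by simp, fun g => ?_⟩
  by_cases hA : ∃ γ0 ∈ Γ, γ0 ≠ 1 ∧ γ0 ≠ -1 ∧ tn (g * γ0 * g⁻¹) < t0
  · obtain ⟨γ0, hγ0, hγ1, hγn1, hγt⟩ := hA
    have hT0 : 0 < tn (g * γ0 * g⁻¹) := tn_conj_pos g γ0 hγ1 hγn1
    obtain ⟨a, ha⟩ : ∃ a, a = tn (g * γ0 * g⁻¹) ^ (1 / 2 : ℝ) := ⟨_, rfl⟩
    have ha0 : 0 < a := ha ▸ Real.rpow_pos_of_pos hT0 _
    obtain ⟨u, hu⟩ : ∃ u : ℝ → ℝ, u = fun θ =>
      (tn ((dia r * rot θ * g) * γ0 * (dia r * rot θ * g)⁻¹)) ^ (-(1 / 2) : ℝ) := ⟨_, rfl⟩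
    have hpt : ∀ θ, lam Γ (dia r * rot θ * g) ≤ ENNReal.ofReal (ε ^ (-(1 / 2) : ℝ)) +
        lam Γ g * ENNReal.ofReal (a * u θ) := by
      intro θ
      refine iSup_le fun γ => ?_
      obtain ⟨γ, hγ, hγ1', hγn1'⟩ := γ
      simp only
      by_cases hlt : tn ((dia r * rot θ * g) * γ * (dia r * rot θ * g)⁻¹) < ε
      · refine le_trans ?_ le_add_self
        have hlt0 : tn ((dia r * rot θ * g) * γ0 * (dia r * rot θ * g)⁻¹) < ε := by
          refine lt_of_le_of_lt (tn_step_le r θ hr.le g γ0) ?_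
          rw [← hC]
          calc C * tn (g * γ0 * g⁻¹) < C * t0 := by gcongr
            _ = ε := by rw [ht0]; field_simp
        have hcomm := hZ (dia r * rot θ * g) γ0 γ hγ0 hγ hlt0 hlt
        obtain ⟨κ, hκ, hκt⟩ := hR γ0 γ hcomm hγ1 hγn1 hγ1' hγn1'
        have hle : ENNReal.ofReal ((tn (g * γ * g⁻¹)) ^ (-(1 / 2) : ℝ)) ≤ lam Γ g :=
          le_iSup (f := fun γ : {γ : G // γ ∈ Γ ∧ γ ≠ 1 ∧ γ ≠ -1} =>
            ENNReal.ofReal ((tn (g * γ.1 * g⁻¹)) ^ (-(1 / 2) : ℝ))) ⟨γ, hγ, hγ1', hγn1'⟩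
        refine le_trans (le_of_eq ?_) (mul_le_mul_left hle _)
        rw [← ENNReal.ofReal_mul (Real.rpow_nonneg (tn_nonneg _) _)]
        congr 1
        rw [hκt, hκt, Real.mul_rpow hκ.le (tn_nonneg _), Real.mul_rpow hκ.le (tn_nonneg _), ha, hu]
        have : tn (g * γ0 * g⁻¹) ^ (-(1 / 2) : ℝ) * tn (g * γ0 * g⁻¹) ^ (1 / 2 : ℝ) = 1 := by
          rw [← Real.rpow_add hT0]; simp
        simp only
        linear_combination (-1) * (κ ^ (-(1 / 2) : ℝ) * (tn ((dia r * rot θ * g) * γ0 *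
          (dia r * rot θ * g)⁻¹)) ^ (-(1 / 2) : ℝ)) * this
      · push Not at hlt
        refine le_trans ?_ le_self_add
        apply ENNReal.ofReal_le_ofReal
        exact Real.rpow_le_rpow_of_nonpos hε hlt (by norm_num)
    have hucont : Continuous u := by
      rw [hu]
      have h1 : Continuous fun θ : ℝ =>
          tn ((dia r * rot θ * g) * γ0 * (dia r * rot θ * g)⁻¹) := by
        have := cont_tn
        have := cont_rot
        fun_prop
      refine h1.rpow_const fun θ => ?_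
      left
      exact tn_conj_ne _ γ0 hγ1 hγn1
    have hunn : ∀ θ, 0 ≤ u θ := fun θ => by
      rw [hu]; exact Real.rpow_nonneg (tn_nonneg _) _
    have hint : ∫⁻ θ in Ioc (0 : ℝ) (2 * Real.pi), ENNReal.ofReal (a * u θ) =
        ENNReal.ofReal (a * ∫ θ in (0 : ℝ)..(2 * Real.pi), u θ) := by
      rw [← intervalIntegral.integral_const_mul, intervalIntegral.integral_of_le (by positivity)]
      rw [ofReal_integral_eq_lintegral_ofReal]
      · exact ((continuous_const.mul hucont).integrableOn_Icc).mono_set Ioc_subset_Icc_self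
      · exact Eventually.of_forall fun θ => mul_nonneg ha0.le (hunn θ)
    have hD' := hD g γ0 (by
      intro h
      rcases eq_of_tn_zero _ h with h | h
      · exact hγ1 h
      · exact hγn1 h)
    calc PP r (lam Γ) g ≤ ENNReal.ofReal (1 / (2 * Real.pi)) *
        ∫⁻ θ in Ioc (0 : ℝ) (2 * Real.pi), (ENNReal.ofReal (ε ^ (-(1 / 2) : ℝ)) +
        lam Γ g * ENNReal.ofReal (a * u θ)) := by
          unfold PP
          gcongr with θ
          exact hpt θ
      _ = ENNReal.ofReal (ε ^ (-(1 / 2) : ℝ)) + lam Γ g *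
          ENNReal.ofReal (a * ((1 / (2 * Real.pi)) * ∫ θ in (0 : ℝ)..(2 * Real.pi), u θ)) := by
          have hmau : Measurable fun θ : ℝ => ENNReal.ofReal (a * u θ) :=
            (continuous_const.mul hucont).measurable.ennreal_ofReal
          rw [lintegral_add_left measurable_const, lintegral_const_mul _ hmau, hint,
            setLIntegral_const, Real.volume_Ioc, sub_zero, mul_add]
          congr 1
          · rw [mul_comm (ENNReal.ofReal (ε ^ (-(1 / 2) : ℝ))), ← mul_assoc, two_pi, one_mul]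
          · rw [mul_left_comm, ← ENNReal.ofReal_mul (by positivity)]
            congr 2
            ring
      _ ≤ ENNReal.ofReal (ε ^ (-(1 / 2) : ℝ)) + lam Γ g * ENNReal.ofReal (1 - c) := by
          gcongr
          have hu2 : (∫ θ in (0 : ℝ)..(2 * Real.pi), u θ) = ∫ θ in (0 : ℝ)..(2 * Real.pi),
            (tn ((dia r * rot θ * g) * γ0 * (dia r * rot θ * g)⁻¹)) ^ (-(1 / 2) : ℝ) := by
            rw [hu]
          rw [hu2]
          calc _ ≤ a * ((1 - c) * (tn (g * γ0 * g⁻¹)) ^ (-(1 / 2) : ℝ)) := by gcongr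
            _ = 1 - c := by
              have : tn (g * γ0 * g⁻¹) ^ (-(1 / 2) : ℝ) * tn (g * γ0 * g⁻¹) ^ (1 / 2 : ℝ) = 1 := by
                rw [← Real.rpow_add hT0]; simp
              rw [ha]
              linear_combination (1 - c) * this
      _ ≤ _ := by
          rw [mul_comm (lam Γ g)]
          gcongr
          exact le_add_self
  · push Not at hA
    have hpt : ∀ θ, lam Γ (dia r * rot θ * g) ≤ ENNReal.ofReal ((t0 / C) ^ (-(1 / 2) : ℝ)) := by
      intro θ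
      refine iSup_le fun γ => ?_
      obtain ⟨γ, hγ, hγ1', hγn1'⟩ := γ
      simp only
      apply ENNReal.ofReal_le_ofReal
      refine Real.rpow_le_rpow_of_nonpos (div_pos ht0p hC0) ?_ (by norm_num)
      rw [div_le_iff₀ hC0, mul_comm]
      refine (hA γ hγ hγ1' hγn1').trans ?_
      rw [hC]
      exact le_tn_step r θ hr.le g γ
    calc PP r (lam Γ) g ≤ PP r (fun _ => ENNReal.ofReal ((t0 / C) ^ (-(1 / 2) : ℝ))) g := by
          unfold PP
          gcongr with θ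
          exact hpt θ
      _ = ENNReal.ofReal ((t0 / C) ^ (-(1 / 2) : ℝ)) := PP_const _ _ _
      _ ≤ _ := by
          rw [add_assoc]
          exact le_self_add

theorem int_inv (Γ : Subgroup G) (μ : Measure G) (D : Set G) (hd : DiscreteTopology Γ)
    (h1 : μ.IsHaarMeasure) (h2 : μ.IsMulRightInvariant) (hfd : IsFundamentalDomain Γ.op D μ)
    (f : G → ENNReal) (hinv : ∀ γ ∈ Γ, ∀ g, f (g * γ) = f g) (h : G) :
    ∫⁻ g in D, f (h * g) ∂μ = ∫⁻ g in D, f g ∂μ := by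
  have hcount := countable_of_discrete Γ hd
  have hcount' : Countable Γ.op := Countable.of_equiv _ Γ.equivOp
  have hfd2 : IsFundamentalDomain Γ.op (h • D) μ := hfd.smul_of_comm h
  have e1 : ∫⁻ g in D, f (h * g) ∂μ = ∫⁻ g in h • D, f g ∂μ := by
    have := (measurePreserving_mul_left μ h).setLIntegral_comp_preimage_emb
      (measurableEmbedding_mulLeft h) f (h • D)
    rw [← this]
    congr 2
    ext x
    rw [mem_preimage, mem_smul_set_iff_inv_smul_mem, smul_eq_mul, inv_mul_cancel_left]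
  rw [e1]
  refine hfd2.setLIntegral_eq hfd f fun g x => ?_
  exact hinv (g.1.unop) (Subgroup.mem_op.1 g.2) x

theorem int_PP (Γ : Subgroup G) (μ : Measure G) (D : Set G) (hd : DiscreteTopology Γ)
    (h1 : μ.IsHaarMeasure) (h2 : μ.IsMulRightInvariant) (hfd : IsFundamentalDomain Γ.op D μ)
    (hfin : μ D < ⊤)
    (f : G → ENNReal) (hf : Measurable f) (hinv : ∀ γ ∈ Γ, ∀ g, f (g * γ) = f g) (r : ℝ) :
    ∫⁻ g in D, PP r f g ∂μ = ∫⁻ g in D, f g ∂μ := by
  have := sctG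
  have : IsFiniteMeasure (μ.restrict D) := ⟨by simpa using hfin⟩
  have hm : Measurable fun p : G × ℝ => f (dia r * rot p.2 * p.1) := by
    refine hf.comp ?_
    exact ((cont_step r).comp continuous_swap).measurable
  unfold PP
  rw [lintegral_const_mul _ (Measurable.lintegral_prod_right' hm)]
  rw [lintegral_lintegral_swap hm.aemeasurable]
  have : ∀ θ : ℝ, ∫⁻ g in D, f (dia r * rot θ * g) ∂μ = ∫⁻ g in D, f g ∂μ := fun θ =>
    int_inv Γ μ D hd h1 h2 hfd f hinv _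
  simp only [this]
  rw [setLIntegral_const, Real.volume_Ioc, sub_zero, mul_comm (∫⁻ g in D, f g ∂μ), ← mul_assoc,
    two_pi, one_mul]

end LATINT

open LATINT in
theorem st_LATINT (hZ : ST_ZAS) (hR : ST_RATIO) (hD : ST_DRIFT) : ST_LATINT := by
  intro Γ μ D hd h1 h2 hfd hfin
  obtain ⟨r, c, hr, hc, hc1, hD⟩ := hD
  obtain ⟨K, hK, hPP⟩ := PP_lam_le hZ hR r c hr hD Γ hd
  have hlm := lam_meas Γ hd
  have hKD : K * μ D < ⊤ := ENNReal.mul_lt_top hK hfin
  -- truncations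
  have hcap : ∀ N : ℕ, ENNReal.ofReal c *
      ∫⁻ g in D, ({g | lam Γ g ≤ N} : Set G).indicator (lam Γ) g ∂μ ≤ K * μ D := by
    intro N
    have hSm : MeasurableSet {g | lam Γ g ≤ (N : ENNReal)} := measurableSet_le hlm measurable_const
    have hindm : Measurable (({g | lam Γ g ≤ (N : ENNReal)} : Set G).indicator (lam Γ)) :=
      hlm.indicator hSm
    have hLN : Measurable fun g => min (lam Γ g) (N : ENNReal) := hlm.min measurable_const
    have hpt : ∀ g, PP r (fun g => min (lam Γ g) (N : ENNReal)) g +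
        ENNReal.ofReal c * ({g | lam Γ g ≤ (N : ENNReal)} : Set G).indicator (lam Γ) g ≤
        min (lam Γ g) (N : ENNReal) + K := by
      intro g
      by_cases hg : lam Γ g ≤ (N : ENNReal)
      · rw [indicator_of_mem (show g ∈ {g | lam Γ g ≤ (N : ENNReal)} from hg), min_eq_left hg]
        calc PP r (fun g => min (lam Γ g) (N : ENNReal)) g + ENNReal.ofReal c * lam Γ g
            ≤ PP r (lam Γ) g + ENNReal.ofReal c * lam Γ g := by
              gcongr
              exact PP_mono r (fun g => min_le_left _ _) g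
          _ ≤ K + ENNReal.ofReal (1 - c) * lam Γ g + ENNReal.ofReal c * lam Γ g := by
              gcongr
              exact hPP g
          _ = lam Γ g + K := by
              rw [add_assoc, ← add_mul, ← ENNReal.ofReal_add (by linarith) hc.le]
              simp [add_comm]
      · have hg' : g ∉ {g | lam Γ g ≤ (N : ENNReal)} := hg
        rw [indicator_of_notMem hg', mul_zero, add_zero]
        push Not at hg
        rw [min_eq_right hg.le]
        calc PP r (fun g => min (lam Γ g) (N : ENNReal)) g ≤ PP r (fun _ => (N : ENNReal)) g :=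
              PP_mono r (fun g => min_le_right _ _) g
          _ = N := PP_const _ _ _
          _ ≤ _ := le_self_add
    have hint := lintegral_mono (μ := μ.restrict D) hpt
    rw [lintegral_add_right _ (hindm.const_mul _), lintegral_add_right _ measurable_const,
      lintegral_const_mul _ hindm, setLIntegral_const] at hint
    rw [int_PP Γ μ D hd h1 h2 hfd hfin _ hLN (fun γ hγ g => by rw [lam_inv Γ γ hγ]) r] at hint
    have hfinN : ∫⁻ g in D, min (lam Γ g) (N : ENNReal) ∂μ ≠ ⊤ := by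
      refine ne_of_lt ?_
      calc ∫⁻ g in D, min (lam Γ g) (N : ENNReal) ∂μ ≤ ∫⁻ g in D, (N : ENNReal) ∂μ :=
            lintegral_mono fun g => min_le_right _ _
        _ = N * μ D := setLIntegral_const _ _
        _ < ⊤ := ENNReal.mul_lt_top (by simp) hfin
    exact (ENNReal.add_le_add_iff_left hfinN).1 hint
  have hsup : ∀ g, (⨆ N : ℕ, ({g | lam Γ g ≤ (N : ENNReal)} : Set G).indicator (lam Γ) g) =
      lam Γ g := by
    intro g
    apply le_antisymm
    · exact iSup_le fun N => indicator_le_self _ _ _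
    · obtain ⟨N, hN⟩ := ENNReal.exists_nat_gt (lam_lt_top Γ hd g).ne
      refine le_iSup_of_le N ?_
      rw [indicator_of_mem (show g ∈ {g | lam Γ g ≤ (N : ENNReal)} from hN.le)]
  have hMC : ∫⁻ g in D, lam Γ g ∂μ = ⨆ N : ℕ, ∫⁻ g in D,
      ({g | lam Γ g ≤ (N : ENNReal)} : Set G).indicator (lam Γ) g ∂μ := by
    rw [← lintegral_iSup]
    · simp only [hsup]
    · intro N
      exact hlm.indicator (measurableSet_le hlm measurable_const)
    · intro N M hNM g
      refine indicator_le_indicator_of_subset ?_ (fun _ => zero_le) g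
      intro x hx
      exact le_trans (show lam Γ x ≤ N from hx) (by exact_mod_cast hNM)
  have hfinal : ENNReal.ofReal c * ∫⁻ g in D, lam Γ g ∂μ ≤ K * μ D := by
    rw [hMC, ENNReal.mul_iSup]
    exact iSup_le hcap
  by_contra htop
  have htop' : ∫⁻ g in D, lam Γ g ∂μ = ⊤ := not_lt_top_iff.1 htop
  rw [htop', ENNReal.mul_top (by simpa using hc)] at hfinal
  exact absurd (lt_of_le_of_lt hfinal hKD) (lt_irrefl _)

end Pool.Agent.Helper73.Dil
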