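import Pool.Agent.Helper73.Dil.Pure

open Topology Set Filter MeasureTheory Metric

namespace Pool.Agent.Helper73.Dil

namespace POIN

noncomputable def FF (f : ℂ → ℂ) (z : ℂ) : ℝ := ‖dx f z‖ ^ 2 + ‖dy f z‖ ^ 2

theorem FF_nonneg (f : ℂ → ℂ) (z : ℂ) : 0 ≤ FF f z := by unfold FF; positivity

theorem FF_meas (f : ℂ → ℂ) : Measurable (FF f) := by
  unfold FF dx dy
  have h1 : Measurable fun z => fderiv ℝ f z 1 := measurable_fderiv_apply_const ℝ f 1
  have h2 : Measurable fun z => fderiv ℝ f z Complex.I := measurable_fderiv_apply_const ℝ f _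
  fun_prop

theorem fderiv_bound (f : ℂ → ℂ) (z w : ℂ) : ‖fderiv ℝ f z w‖ ^ 2 ≤ ‖w‖ ^ 2 * FF f z := by
  have h1 : w = w.re • (1 : ℂ) + w.im • Complex.I := by
    apply Complex.ext <;> simp
  have h2 : fderiv ℝ f z w = w.re • dx f z + w.im • dy f z := by
    conv_lhs => rw [h1]
    rw [map_add, map_smul, map_smul]
    rfl
  have h3 : ‖fderiv ℝ f z w‖ ≤ |w.re| * ‖dx f z‖ + |w.im| * ‖dy f z‖ := by
    rw [h2]
    refine (norm_add_le _ _).trans ?_
    rw [norm_smul, norm_smul, Real.norm_eq_abs, Real.norm_eq_abs]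
  have h4 : ‖w‖ ^ 2 = |w.re| ^ 2 + |w.im| ^ 2 := by
    rw [Complex.sq_norm, Complex.normSq_apply, sq_abs, sq_abs]; ring
  have h5 : 0 ≤ ‖fderiv ℝ f z w‖ := norm_nonneg _
  rw [h4]
  unfold FF
  have h6 : ‖fderiv ℝ f z w‖ ^ 2 ≤ (|w.re| * ‖dx f z‖ + |w.im| * ‖dy f z‖) ^ 2 :=
    pow_le_pow_left₀ h5 h3 2
  refine h6.trans ?_
  nlinarith [sq_nonneg (|w.re| * ‖dy f z‖ - |w.im| * ‖dx f z‖)]

theorem Bh_sub : Bh ⊆ B1 := ball_subset_ball (by norm_num)

theorem seg_mem {x y : ℂ} (hx : x ∈ Bh) (hy : y ∈ Bh) {s : ℝ} (hs : s ∈ Icc (0 : ℝ) 1) :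
    (1 - s) • x + s • y ∈ Bh :=
  (convex_ball (0 : ℂ) (1 / 2)) hx hy (by linarith [hs.2]) hs.1 (by ring)

theorem seg_bound (f : ℂ → ℂ) (hf : ContDiffOn ℝ 1 f B1) {x y : ℂ} (hx : x ∈ Bh) (hy : y ∈ Bh) :
    ENNReal.ofReal (‖f x - f y‖ ^ 2) ≤
      ∫⁻ s in Ioc (0 : ℝ) 1, Bh.indicator (fun z => ENNReal.ofReal (FF f z))
        ((1 - s) • x + s • y) := by
  have hopen : IsOpen B1 := isOpen_ball
  have hdiff : ∀ z ∈ B1, HasFDerivAt f (fderiv ℝ f z) z := fun z hz =>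
    ((hf.differentiableOn (by norm_num)).differentiableAt (hopen.mem_nhds hz)).hasFDerivAt
  have hcont : ContinuousOn (fderiv ℝ f) B1 := hf.continuousOn_fderiv_of_isOpen hopen le_rfl
  obtain ⟨γ, hγ⟩ : ∃ γ : ℝ → ℂ, γ = fun s => (1 - s) • x + s • y := ⟨_, rfl⟩
  have hγd : ∀ s, HasDerivAt γ (y - x) s := by
    intro s
    have h1 : HasDerivAt (fun s : ℝ => (1 - s) • x) ((-1 : ℝ) • x) s :=
      ((hasDerivAt_id s).const_sub 1).smul_const x
    have h2 : HasDerivAt (fun s : ℝ => s • y) ((1 : ℝ) • y) s := (hasDerivAt_id s).smul_const y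
    have h3 := h1.add h2
    rw [hγ]
    have e : y - x = (-1 : ℝ) • x + (1 : ℝ) • y := by simp; ring
    rw [e]
    exact h3
  have hγc : Continuous γ := by rw [hγ]; fun_prop
  have hγm : ∀ s ∈ Icc (0 : ℝ) 1, γ s ∈ Bh := fun s hs => by rw [hγ]; exact seg_mem hx hy hs
  obtain ⟨g', hg'⟩ : ∃ g' : ℝ → ℂ, g' = fun s => fderiv ℝ f (γ s) (y - x) := ⟨_, rfl⟩
  have hg'c : ContinuousOn g' (Icc 0 1) := by
    rw [hg']
    have : ContinuousOn (fun s => fderiv ℝ f (γ s)) (Icc 0 1) :=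
      hcont.comp hγc.continuousOn (fun s hs => Bh_sub (hγm s hs))
    exact this.clm_apply continuousOn_const
  have hg'i : IntervalIntegrable g' volume 0 1 :=
    (hg'c.mono (by rw [uIcc_of_le zero_le_one])).intervalIntegrable
  have hFTC : ∫ s in (0 : ℝ)..1, g' s = f y - f x := by
    rw [intervalIntegral.integral_eq_sub_of_hasDerivAt (f := fun s => f (γ s)) _ hg'i]
    · simp [hγ]
    · intro s hs
      rw [uIcc_of_le zero_le_one] at hs
      rw [hg']
      exact (hdiff (γ s) (Bh_sub (hγm s hs))).comp_hasDerivAt s (hγd s)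
  obtain ⟨m, hm⟩ : ∃ m, m = ∫ s in (0 : ℝ)..1, ‖g' s‖ := ⟨_, rfl⟩
  have hnc : ContinuousOn (fun s => ‖g' s‖) (Icc 0 1) := hg'c.norm
  have hni : IntervalIntegrable (fun s => ‖g' s‖) volume 0 1 := hg'i.norm
  have hn2c : ContinuousOn (fun s => ‖g' s‖ ^ 2) (Icc 0 1) := hnc.pow 2
  have hn2i : IntervalIntegrable (fun s => ‖g' s‖ ^ 2) volume 0 1 :=
    (hn2c.mono (by rw [uIcc_of_le zero_le_one])).intervalIntegrable
  have hm1 : ‖f x - f y‖ ≤ m := by
    rw [norm_sub_rev, ← hFTC, hm]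
    exact intervalIntegral.norm_integral_le_integral_norm zero_le_one
  have hm2 : m ^ 2 ≤ ∫ s in (0 : ℝ)..1, ‖g' s‖ ^ 2 := by
    have h0 : 0 ≤ ∫ s in (0 : ℝ)..1, (‖g' s‖ - m) ^ 2 :=
      intervalIntegral.integral_nonneg zero_le_one fun s _ => sq_nonneg _
    have h1 : ∫ s in (0 : ℝ)..1, (‖g' s‖ - m) ^ 2 =
        (∫ s in (0 : ℝ)..1, ‖g' s‖ ^ 2) - m ^ 2 := by
      have e : (fun s => (‖g' s‖ - m) ^ 2) = fun s => (‖g' s‖ ^ 2 - (2 * m) * ‖g' s‖) + m ^ 2 := by
        funext s; ring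
      rw [e, intervalIntegral.integral_add (hn2i.sub (hni.const_mul _)) (by simp),
        intervalIntegral.integral_sub hn2i (hni.const_mul _),
        intervalIntegral.integral_const_mul, ← hm]
      simp
      ring
    linarith
  have hxy : ‖y - x‖ ≤ 1 := by
    have h1 : ‖x‖ < 1 / 2 := by simpa [Bh] using hx
    have h2 : ‖y‖ < 1 / 2 := by simpa [Bh] using hy
    have := norm_sub_le y x
    linarith
  have hpt : ∀ s, ‖g' s‖ ^ 2 ≤ FF f (γ s) := by
    intro s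
    rw [hg']
    refine (fderiv_bound f (γ s) (y - x)).trans ?_
    have h1 : ‖y - x‖ ^ 2 ≤ 1 := pow_le_one₀ (norm_nonneg _) hxy
    nlinarith [FF_nonneg f (γ s)]
  calc ENNReal.ofReal (‖f x - f y‖ ^ 2) ≤ ENNReal.ofReal (m ^ 2) :=
        ENNReal.ofReal_le_ofReal (pow_le_pow_left₀ (norm_nonneg _) hm1 2)
    _ ≤ ENNReal.ofReal (∫ s in (0 : ℝ)..1, ‖g' s‖ ^ 2) := ENNReal.ofReal_le_ofReal hm2
    _ = ∫⁻ s in Ioc (0 : ℝ) 1, ENNReal.ofReal (‖g' s‖ ^ 2) := by
        rw [intervalIntegral.integral_of_le zero_le_one, ofReal_integral_eq_lintegral_ofReal]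
        · exact (intervalIntegrable_iff_integrableOn_Ioc_of_le zero_le_one).1 hn2i
        · exact Eventually.of_forall fun s => sq_nonneg _
    _ ≤ _ := by
        refine setLIntegral_mono' measurableSet_Ioc fun s hs => ?_
        have hs' : s ∈ Icc (0 : ℝ) 1 := ⟨hs.1.le, hs.2⟩
        rw [indicator_of_mem (seg_mem hx hy hs')]
        have := hpt s
        rw [hγ] at this
        exact ENNReal.ofReal_le_ofReal this

theorem scale_le (Φ : ℂ → ENNReal) (hΦ : Measurable Φ) (a : ℝ) (ha : 1 / 2 ≤ a) (b : ℂ) :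
    ∫⁻ x, Φ (a • x + b) ≤ 4 * ∫⁻ x, Φ x := by
  have ha0 : a ≠ 0 := by linarith
  have h1 : ∫⁻ x, Φ (a • x + b) = ∫⁻ y, Φ (y + b) ∂(Measure.map (a • ·) (volume : Measure ℂ)) := by
    rw [lintegral_map (by fun_prop) (by fun_prop)]
  rw [h1, Measure.map_addHaar_smul volume ha0, lintegral_smul_measure, smul_eq_mul,
    lintegral_add_right_eq_self (fun y => Φ y) b]
  gcongr
  rw [Complex.finrank_real_complex]
  have h4 : |(a ^ 2)⁻¹| ≤ 4 := by
    rw [abs_of_pos (by positivity), inv_le_comm₀ (by positivity) (by norm_num)]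
    nlinarith
  calc ENNReal.ofReal |(a ^ 2)⁻¹| ≤ ENNReal.ofReal 4 := ENNReal.ofReal_le_ofReal h4
    _ = 4 := by simp

theorem triple (Φ : ℂ → ENNReal) (hΦ : Measurable Φ) :
    ∫⁻ y in Bh, ∫⁻ x in Bh, ∫⁻ s in Ioc (0 : ℝ) 1, Φ ((1 - s) • x + s • y) ≤
      4 * volume Bh * ∫⁻ x, Φ x := by
  have hmeas3 : Measurable fun p : (ℂ × ℂ) × ℝ => Φ ((1 - p.2) • p.1.2 + p.2 • p.1.1) := by
    fun_prop
  have hmeasS : ∀ s : ℝ, Measurable fun p : ℂ × ℂ => Φ ((1 - s) • p.2 + s • p.1) := by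
    intro s; fun_prop
  -- put s outside
  have e1 : ∫⁻ y in Bh, ∫⁻ x in Bh, ∫⁻ s in Ioc (0 : ℝ) 1, Φ ((1 - s) • x + s • y) =
      ∫⁻ s in Ioc (0 : ℝ) 1, ∫⁻ y in Bh, ∫⁻ x in Bh, Φ ((1 - s) • x + s • y) := by
    have a1 : ∀ y : ℂ, ∫⁻ x in Bh, ∫⁻ s in Ioc (0 : ℝ) 1, Φ ((1 - s) • x + s • y) =
        ∫⁻ s in Ioc (0 : ℝ) 1, ∫⁻ x in Bh, Φ ((1 - s) • x + s • y) := by
      intro y
      refine lintegral_lintegral_swap ?_
      exact Measurable.aemeasurable (by fun_prop)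
    simp only [a1]
    refine lintegral_lintegral_swap ?_
    have : Measurable fun p : (ℂ × ℝ) × ℂ => Φ ((1 - p.1.2) • p.2 + p.1.2 • p.1.1) := by fun_prop
    exact (Measurable.lintegral_prod_right' this).aemeasurable
  rw [e1]
  have e2 : ∀ s ∈ Ioc (0 : ℝ) 1, ∫⁻ y in Bh, ∫⁻ x in Bh, Φ ((1 - s) • x + s • y) ≤
      4 * volume Bh * ∫⁻ x, Φ x := by
    intro s hs
    rcases le_total s (1 / 2) with h | h
    · calc ∫⁻ y in Bh, ∫⁻ x in Bh, Φ ((1 - s) • x + s • y)
          ≤ ∫⁻ y in Bh, 4 * ∫⁻ x, Φ x := by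
            gcongr with y
            refine le_trans (setLIntegral_le_lintegral _ _) ?_
            exact scale_le Φ hΦ (1 - s) (by linarith) (s • y)
        _ = _ := by rw [setLIntegral_const]; ring
    · have sw : ∫⁻ y in Bh, ∫⁻ x in Bh, Φ ((1 - s) • x + s • y) =
          ∫⁻ x in Bh, ∫⁻ y in Bh, Φ ((1 - s) • x + s • y) := by
        refine lintegral_lintegral_swap ?_
        exact Measurable.aemeasurable (by fun_prop)
      rw [sw]
      calc ∫⁻ x in Bh, ∫⁻ y in Bh, Φ ((1 - s) • x + s • y)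
          ≤ ∫⁻ x in Bh, 4 * ∫⁻ x, Φ x := by
            gcongr with x
            refine le_trans (setLIntegral_le_lintegral _ _) ?_
            have := scale_le Φ hΦ s h ((1 - s) • x)
            refine le_trans (le_of_eq ?_) this
            congr 1
            funext y
            rw [add_comm]
        _ = _ := by rw [setLIntegral_const]; ring
  calc _ ≤ ∫⁻ s in Ioc (0 : ℝ) 1, 4 * volume Bh * ∫⁻ x, Φ x :=
        setLIntegral_mono' measurableSet_Ioc e2
    _ = _ := by rw [setLIntegral_const]; simp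

end POIN

open POIN in
theorem st_POIN : ST_POIN := by
  refine ⟨4, fun f hf hint => ?_⟩
  have hvol0 : volume Bh ≠ 0 := (measure_ball_pos volume _ (by norm_num)).ne'
  have hvol1 : volume Bh ≠ ⊤ := measure_ball_lt_top.ne
  have hcont : ContinuousOn f B1 := hf.continuousOn
  have hclosed : closedBall (0 : ℂ) (1 / 2) ⊆ B1 := closedBall_subset_ball (by norm_num)
  have hintc : ∀ c : ℂ, IntegrableOn (fun z => ‖f z - c‖ ^ 2) Bh := by
    intro c
    have h1 : ContinuousOn (fun z => ‖f z - c‖ ^ 2) (closedBall (0 : ℂ) (1 / 2)) :=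
      (((hcont.mono hclosed).sub continuousOn_const).norm).pow 2
    exact (h1.integrableOn_compact (isCompact_closedBall _ _)).mono_set ball_subset_closedBall
  obtain ⟨Φ, hΦ⟩ : ∃ Φ, Φ = Bh.indicator (fun z => ENNReal.ofReal (FF f z)) := ⟨_, rfl⟩
  have hΦm : Measurable Φ := by
    rw [hΦ]; exact ((FF_meas f).ennreal_ofReal).indicator measurableSet_ball
  -- the double integral
  have hdouble : ∫⁻ y in Bh, ∫⁻ x in Bh, ENNReal.ofReal (‖f x - f y‖ ^ 2) ≤
      4 * volume Bh * ∫⁻ x, Φ x := by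
    refine le_trans ?_ (triple Φ hΦm)
    refine setLIntegral_mono' measurableSet_ball fun y hy => ?_
    refine setLIntegral_mono' measurableSet_ball fun x hx => ?_
    rw [hΦ]
    exact seg_bound f hf hx hy
  -- choose y
  have hex : ∃ y ∈ Bh, ∫⁻ x in Bh, ENNReal.ofReal (‖f x - f y‖ ^ 2) ≤ 4 * ∫⁻ x, Φ x := by
    by_contra hno
    push Not at hno
    have hΦfin : ∫⁻ x, Φ x ≠ ⊤ := by
      intro h
      have hy := hno 0 (by simp [Bh])
      rw [h] at hy
      simp at hy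
    have hlt : ∫⁻ y in Bh, (4 * ∫⁻ x, Φ x) < ∫⁻ y in Bh, ∫⁻ x in Bh,
        ENNReal.ofReal (‖f x - f y‖ ^ 2) := by
      refine lintegral_strict_mono (by simpa using hvol0) ?_ ?_ ?_
      · obtain ⟨f', hf'⟩ : ∃ f', f' = Bh.indicator f := ⟨_, rfl⟩
        have hBm : MeasurableSet Bh := measurableSet_ball
        have hf'm : Measurable f' := by
          classical
          rw [hf', ← piecewise_eq_indicator]
          exact (hcont.mono Bh_sub).measurable_piecewise continuousOn_const hBm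
        have hm : Measurable fun y => ∫⁻ x in Bh, ENNReal.ofReal (‖f' x - f' y‖ ^ 2) := by
          have : Measurable fun p : ℂ × ℂ => ENNReal.ofReal (‖f' p.2 - f' p.1‖ ^ 2) := by
            fun_prop
          exact Measurable.lintegral_prod_right' this
        refine hm.aemeasurable.congr ?_
        refine (ae_restrict_iff' hBm).2 (Eventually.of_forall fun y hy => ?_)
        refine setLIntegral_congr_fun hBm fun x hx => ?_
        simp only [hf', indicator_of_mem hx, indicator_of_mem hy]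
      · rw [setLIntegral_const]
        exact ENNReal.mul_ne_top (ENNReal.mul_ne_top (by simp) hΦfin) hvol1
      · exact (ae_restrict_iff' measurableSet_ball).2 (Eventually.of_forall fun y hy => hno y hy)
    rw [setLIntegral_const] at hlt
    refine absurd (lt_of_lt_of_le hlt hdouble) ?_
    rw [mul_right_comm]
    exact lt_irrefl _
  obtain ⟨y, hy, hyle⟩ := hex
  refine ⟨f y, hintc _, ?_⟩
  have hB1int : IntegrableOn (FF f) B1 := hint
  have h1 : ENNReal.ofReal (∫ z in Bh, ‖f z - f y‖ ^ 2) =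
      ∫⁻ x in Bh, ENNReal.ofReal (‖f x - f y‖ ^ 2) :=
    ofReal_integral_eq_lintegral_ofReal (hintc _) (Eventually.of_forall fun _ => sq_nonneg _)
  have h2 : ∫⁻ x, Φ x ≤ ENNReal.ofReal (∫ z in B1, FF f z) := by
    rw [ofReal_integral_eq_lintegral_ofReal hB1int (Eventually.of_forall fun _ => FF_nonneg _ _),
      hΦ, lintegral_indicator (show MeasurableSet Bh from measurableSet_ball)]
    exact lintegral_mono_set Bh_sub
  have h3 : ENNReal.ofReal (∫ z in Bh, ‖f z - f y‖ ^ 2) ≤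
      ENNReal.ofReal (4 * ∫ z in B1, FF f z) := by
    rw [h1, ENNReal.ofReal_mul (by norm_num)]
    refine hyle.trans ?_
    have : ENNReal.ofReal 4 = 4 := by simp
    rw [this]
    gcongr
  have h4 : 0 ≤ 4 * ∫ z in B1, FF f z :=
    mul_nonneg (by norm_num) (integral_nonneg fun z => FF_nonneg f z)
  exact (ENNReal.ofReal_le_ofReal_iff h4).1 h3

end Pool.Agent.Helper73.Dil
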